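import Mathlib
import Pool.Agent.H562R2.CayleyIso

set_option autoImplicit false
set_option linter.unusedSectionVars false

/-!
# Small-set expansion in Cayley graphs over `F_q^n`: subspaces are extremal

In a Cayley graph of a finite vector space `V` over a finite field `F` with `q` elements, whose
connection set is closed under multiplication by nonzero scalars, the functional
`Φ(A) - λ log_q (|V|/|A|)` on nonempty vertex sets attains its minimum at a linear subspace, for
every `λ ≥ 0`.
-/

namespace Pool.Agent.Results.MP_8d8c46_lc.CayleySubspaces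

open Finset Module
open scoped Classical

noncomputable section

/-- The Cayley graph of `V` with connection set `S` (symmetrised by the hypothesis `S = -S` in all
uses below). -/
def cay {V : Type} [AddCommGroup V] (S : Finset V) (hS : ∀ s ∈ S, -s ∈ S) (h0 : (0 : V) ∉ S) :
    SimpleGraph V where
  Adj x y := y - x ∈ S
  symm := ⟨fun x y h => by
    have := hS _ h
    rwa [neg_sub] at this⟩
  loopless := ⟨fun x h => h0 (by simpa using h)⟩

/-- The number of edges of `G` with exactly one endpoint in `A`, counted as ordered pairs
`(x,y)` with `x ∈ A`, `y ∉ A`. -/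
def cut {V : Type} [Fintype V] (G : SimpleGraph V) (A : Finset V) : ℕ :=
  (univ.filter fun p : V × V => p.1 ∈ A ∧ p.2 ∉ A ∧ G.Adj p.1 p.2).card

/-- The expansion `|E(A, V∖A)|/(d|A|)` in a `d`-regular graph. -/
def expansion {V : Type} [Fintype V] (G : SimpleGraph V) (d : ℕ) (A : Finset V) : ℝ :=
  (cut G A : ℝ) / (d * A.card)

/-- The vertex set of a linear subspace. -/
def carrier {F V : Type} [Field F] [AddCommGroup V] [Module F V] [Fintype V]
    (W : Submodule F V) : Finset V := univ.filter fun x => x ∈ W

lemma cut_cay {V : Type} [AddCommGroup V] [Fintype V] (S : Finset V) (hS : ∀ s ∈ S, -s ∈ S)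
    (h0 : (0 : V) ∉ S) (A : Finset V) :
    (cut (cay S hS h0) A : ℝ)
      = ∑ s, (if s ∈ S then (1 : ℝ) else 0) * H562R2.CayleyIso.outCount A s := by
  unfold cut
  have h1 : ∀ s, (if s ∈ S then (1 : ℝ) else 0) * (H562R2.CayleyIso.outCount A s : ℝ)
      = ∑ x, if x ∈ A ∧ x + s ∉ A ∧ s ∈ S then (1 : ℝ) else 0 := by
    intro s
    unfold H562R2.CayleyIso.outCount
    rw [Finset.card_filter]
    push_cast
    rw [Finset.mul_sum]
    rw [← Finset.sum_subset (Finset.subset_univ A)]
    · refine Finset.sum_congr rfl fun x hx => ?_
      by_cases h1 : s ∈ S <;> by_cases h2 : x + s ∈ A <;> simp [h1, h2, hx]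
    · intro x _ hx
      simp [hx]
  simp_rw [h1]
  rw [Finset.sum_comm, Finset.card_filter]
  push_cast
  rw [← Finset.univ_product_univ, Finset.sum_product]
  refine Finset.sum_congr rfl fun x _ => ?_
  symm
  refine Fintype.sum_equiv (Equiv.addLeft x) _ _ fun s => ?_
  simp only [Equiv.coe_addLeft, cay, add_sub_cancel_left]

/-- `cay S` is `|S|`-regular. -/
lemma cay_regular {V : Type} [AddCommGroup V] [Fintype V] (S : Finset V) (hS : ∀ s ∈ S, -s ∈ S)
    (h0 : (0 : V) ∉ S) : (cay S hS h0).IsRegularOfDegree S.card := by
  intro x
  rw [← SimpleGraph.card_neighborFinset_eq_degree]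
  refine Finset.card_bij (fun y _ => y - x) ?_ ?_ ?_
  · intro y hy
    rw [SimpleGraph.mem_neighborFinset] at hy
    exact hy
  · intro a _ b _ h
    simpa using h
  · intro s hs
    refine ⟨x + s, ?_, by simp⟩
    rw [SimpleGraph.mem_neighborFinset]
    show x + s - x ∈ S
    simpa using hs

lemma out_subspace {F V : Type} [Field F] [Fintype F] [AddCommGroup V] [Module F V] [Fintype V]
    (W : Submodule F V) (s : V) :
    H562R2.CayleyIso.outCount (carrier W) s = if s ∈ W then 0 else (carrier W).card := by
  unfold H562R2.CayleyIso.outCount
  split_ifs with h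
  · rw [Finset.card_eq_zero, Finset.filter_eq_empty_iff]
    intro x hx
    simp only [carrier, Finset.mem_filter, Finset.mem_univ, true_and, not_not] at hx ⊢
    exact W.add_mem hx h
  · congr 1
    rw [Finset.filter_eq_self]
    intro x hx
    simp only [carrier, Finset.mem_filter, Finset.mem_univ, true_and] at hx ⊢
    intro hc
    apply h
    have := W.sub_mem hc hx
    simpa using this

lemma card_carrier {F V : Type} [Field F] [Fintype F] [AddCommGroup V] [Module F V] [Fintype V]
    (W : Submodule F V) : (carrier W).card = Fintype.card F ^ finrank F W := by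
  rw [← Module.card_eq_pow_finrank (K := F) (V := W)]
  unfold carrier
  rw [Fintype.card_subtype]

lemma carrier_nonempty {F V : Type} [Field F] [AddCommGroup V] [Module F V] [Fintype V]
    (W : Submodule F V) : (carrier W).Nonempty := ⟨0, by simp [carrier]⟩

lemma logb_carrier {F V : Type} [Field F] [Fintype F] [AddCommGroup V] [Module F V] [Fintype V]
    (W : Submodule F V) :
    Real.logb (Fintype.card F) ((Fintype.card V : ℝ) / (carrier W).card)
      = (finrank F V : ℝ) - finrank F W := by
  have hq := H562R2.CayleyIso.one_lt_q (F := F)
  rw [card_carrier, Module.card_eq_pow_finrank (K := F) (V := V)]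
  push_cast
  rw [Real.logb_div (by positivity) (by positivity), Real.logb_pow, Real.logb_pow,
    Real.logb_self_eq_one hq]
  ring

lemma sum_out_subspace {F V : Type} [Field F] [Fintype F] [AddCommGroup V] [Module F V]
    [Fintype V] (W : Submodule F V) (μ : V → ℝ) :
    (∑ s, μ s * H562R2.CayleyIso.outCount (carrier W) s) / (carrier W).card
      = ∑ s ∈ univ.filter (fun s => s ∉ W), μ s := by
  have hc : ((carrier W).card : ℝ) ≠ 0 := by
    have := (carrier_nonempty W).card_pos
    positivity
  rw [Finset.sum_filter, Finset.sum_div]
  refine Finset.sum_congr rfl fun s _ => ?_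
  rw [out_subspace]
  by_cases h : s ∈ W
  · simp [h]
  · simp [h, hc]

/-- **Result.**
1. For every finite field `F` (`q` elements), every finite `F`-vector space `V`, all nonnegative
weights `μ` on `V` with `μ(cs) = μ(s)` for nonzero scalars `c`, and every `λ ≥ 0`, there is a
linear subspace `W` such that for **every** nonempty `A ⊆ V`
`μ(V∖W) - λ codim W ≤ (1/|A|) ∑_s μ(s) |{x ∈ A : x + s ∉ A}| - λ log_q(|V|/|A|)`.
2. For the (simple, `|S|`-regular) Cayley graph `G` of `V` with a nonempty connection set `S`
closed under multiplication by nonzero scalars, `0 ∉ S`: for every `λ ≥ 0` some linear subspace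
minimises `Φ_G(A) - λ log_q(|V|/|A|)` over all nonempty vertex sets `A`; and for every `ρ ≥ 0`,
`Φ_G(A) ≥ ρ log_q(|V|/|A|)` holds for all nonempty vertex sets iff it holds for linear subspaces,
that is iff `|S∖W| ≥ ρ |S| codim W` for every subspace `W`.
3. If some nonempty `A` with `|A| ≤ δ|V|`, `0 < δ < 1`, has `Φ_G(A) ≤ η`, then some proper
subspace `W` has `Φ_G(W) ≤ η codim(W) / log_q(1/δ)`.
4. If `Φ_G(A) ≤ η` and `|A| ≤ q^(-γ n)|V|` (`n = dim V`), then for every `c > 0` some subspace `W`
has `Φ_G(W) ≤ η + c` and codimension at least `(γ - η/c) n`. -/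
theorem result :
    (∀ (F V : Type) [Field F] [Fintype F] [AddCommGroup V] [Module F V] [Fintype V]
      (μ : V → ℝ), (∀ s, 0 ≤ μ s) → (∀ (c : F) (s : V), c ≠ 0 → μ (c • s) = μ s) →
      ∀ lam : ℝ, 0 ≤ lam → ∃ W : Submodule F V, ∀ A : Finset V, A.Nonempty →
        (∑ s ∈ univ.filter (fun s => s ∉ W), μ s) - lam * ((finrank F V : ℝ) - finrank F W) ≤
          (∑ s, μ s * ((A.filter fun x => x + s ∉ A).card : ℝ)) / A.card
            - lam * Real.logb (Fintype.card F) (Fintype.card V / A.card)) ∧
    (∀ (F V : Type) [Field F] [Fintype F] [AddCommGroup V] [Module F V] [Fintype V]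
      (S : Finset V) (hS : ∀ s ∈ S, -s ∈ S) (h0 : (0 : V) ∉ S),
      S.Nonempty → (∀ (c : F) (s : V), c ≠ 0 → s ∈ S → c • s ∈ S) →
      (cay S hS h0).IsRegularOfDegree S.card ∧
      (∀ lam : ℝ, 0 ≤ lam → ∃ W : Submodule F V, ∀ A : Finset V, A.Nonempty →
        expansion (cay S hS h0) S.card (carrier W)
            - lam * Real.logb (Fintype.card F) (Fintype.card V / (carrier W).card) ≤
          expansion (cay S hS h0) S.card A
            - lam * Real.logb (Fintype.card F) (Fintype.card V / A.card)) ∧
      (∀ rho : ℝ, 0 ≤ rho →
        ((∀ A : Finset V, A.Nonempty →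
          rho * Real.logb (Fintype.card F) (Fintype.card V / A.card) ≤
            expansion (cay S hS h0) S.card A) ↔
        (∀ W : Submodule F V, rho * S.card * ((finrank F V : ℝ) - finrank F W) ≤
            ((S.filter fun s => s ∉ W).card : ℝ)))) ∧
      (∀ (eta del : ℝ) (A : Finset V), A.Nonempty → 0 < del → del < 1 →
        (A.card : ℝ) ≤ del * Fintype.card V → expansion (cay S hS h0) S.card A ≤ eta →
        ∃ W : Submodule F V, W ≠ ⊤ ∧
          expansion (cay S hS h0) S.card (carrier W) ≤
            eta * ((finrank F V : ℝ) - finrank F W) / Real.logb (Fintype.card F) (1 / del)) ∧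
      (∀ (eta gam c : ℝ) (A : Finset V), A.Nonempty → 0 < c →
        (A.card : ℝ) ≤ (Fintype.card F : ℝ) ^ (-(gam * finrank F V)) * Fintype.card V →
        expansion (cay S hS h0) S.card A ≤ eta →
        ∃ W : Submodule F V, expansion (cay S hS h0) S.card (carrier W) ≤ eta + c ∧
          (gam - eta / c) * finrank F V ≤ (finrank F V : ℝ) - finrank F W)) := by
  refine ⟨?_, ?_⟩
  · intro F V _ _ _ _ _ μ hμ hinv lam hlam
    obtain ⟨W, hW⟩ := H562R2.CayleyIso.main μ hμ hinv lam hlam
    exact ⟨W, fun A hA => hW A hA⟩
  · intro F V _ _ _ _ _ S hS h0 hne hinv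
    have hq := H562R2.CayleyIso.one_lt_q (F := F)
    have hSc : (0 : ℝ) < S.card := by exact_mod_cast hne.card_pos
    set G := cay S hS h0 with hG
    -- the weight
    let μ : V → ℝ := fun s => if s ∈ S then (1 : ℝ) / S.card else 0
    have hμ : ∀ s, 0 ≤ μ s := by
      intro s; simp only [μ]; split_ifs <;> positivity
    have hmem : ∀ (c : F) (s : V), c ≠ 0 → (c • s ∈ S ↔ s ∈ S) := by
      intro c s hc
      constructor
      · intro h
        have := hinv c⁻¹ _ (inv_ne_zero hc) h
        rwa [smul_smul, inv_mul_cancel₀ hc, one_smul] at this
      · exact hinv c s hc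
    have hμinv : ∀ (c : F) (s : V), c ≠ 0 → μ (c • s) = μ s := by
      intro c s hc
      simp only [μ, hmem c s hc]
    have hexp : ∀ A : Finset V, expansion G S.card A
        = (∑ s, μ s * (H562R2.CayleyIso.outCount A s : ℝ)) / A.card := by
      intro A
      unfold expansion
      rw [hG, cut_cay, ← div_div, Finset.sum_div]
      congr 1
      refine Finset.sum_congr rfl fun s _ => ?_
      simp only [μ]
      by_cases h : s ∈ S <;> simp [h]
      ring
    have hmu_compl : ∀ W : Submodule F V, ∑ s ∈ univ.filter (fun s => s ∉ W), μ s
        = ((S.filter fun s => s ∉ W).card : ℝ) / S.card := by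
      intro W
      simp only [μ]
      rw [Finset.sum_ite, Finset.sum_const_zero, add_zero, Finset.sum_const, nsmul_eq_mul]
      have : (univ.filter (fun s => s ∉ W)).filter (fun s => s ∈ S) = S.filter (fun s => s ∉ W) := by
        ext s; simp [and_comm]
      rw [this]; ring
    have hexpW : ∀ W : Submodule F V, expansion G S.card (carrier W)
        = ((S.filter fun s => s ∉ W).card : ℝ) / S.card := by
      intro W; rw [hexp, sum_out_subspace, hmu_compl]
    have hmain : ∀ lam : ℝ, 0 ≤ lam → ∃ W : Submodule F V, ∀ A : Finset V, A.Nonempty →
        expansion G S.card (carrier W)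
            - lam * Real.logb (Fintype.card F) (Fintype.card V / (carrier W).card) ≤
          expansion G S.card A
            - lam * Real.logb (Fintype.card F) (Fintype.card V / A.card) := by
      intro lam hlam
      obtain ⟨W, hW⟩ := H562R2.CayleyIso.main μ hμ hμinv lam hlam
      refine ⟨W, fun A hA => ?_⟩
      have := hW A hA
      rw [logb_carrier, hexpW, hexp, ← hmu_compl]
      exact this
    have hrho : ∀ rho : ℝ, 0 ≤ rho →
        ((∀ A : Finset V, A.Nonempty →
          rho * Real.logb (Fintype.card F) (Fintype.card V / A.card) ≤
            expansion G S.card A) ↔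
        (∀ W : Submodule F V, rho * S.card * ((finrank F V : ℝ) - finrank F W) ≤
            ((S.filter fun s => s ∉ W).card : ℝ))) := by
      intro rho hrho
      constructor
      · intro h W
        have h1 := h (carrier W) (carrier_nonempty W)
        rw [logb_carrier, hexpW, le_div_iff₀ hSc] at h1
        linarith
      · intro h A hA
        obtain ⟨W, hW⟩ := hmain rho hrho
        have h1 := hW A hA
        rw [logb_carrier, hexpW] at h1
        have h2 := h W
        have h3 : rho * ((finrank F V : ℝ) - finrank F W) ≤
            ((S.filter fun s => s ∉ W).card : ℝ) / S.card := by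
          rw [le_div_iff₀ hSc]; linarith
        linarith
    refine ⟨cay_regular S hS h0, hmain, hrho, ?_, ?_⟩
    · -- item 3
      intro eta del A hA hd0 hd1 hcard hle
      have hA0 : (0 : ℝ) < A.card := by exact_mod_cast hA.card_pos
      have hV0 : (0 : ℝ) < Fintype.card V := by
        exact_mod_cast Fintype.card_pos_iff.mpr ⟨(0 : V)⟩
      have hk : 0 < Real.logb (Fintype.card F) (1 / del) :=
        Real.logb_pos hq (by rw [lt_div_iff₀ hd0]; linarith)
      have hkA : Real.logb (Fintype.card F) (1 / del) ≤
          Real.logb (Fintype.card F) (Fintype.card V / A.card) := by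
        apply Real.logb_le_logb_of_le hq (by positivity)
        rw [div_le_div_iff₀ hd0 hA0]
        linarith
      have heta : 0 ≤ eta := by
        refine le_trans ?_ hle
        unfold expansion; positivity
      by_contra hcon
      push Not at hcon
      -- every proper subspace is strictly better, so a slightly larger `ρ` works
      obtain ⟨ρ, hρ0, hρ⟩ : ∃ ρ : ℝ, eta / Real.logb (Fintype.card F) (1 / del) < ρ ∧
          ∀ W : Submodule F V, ρ * ((finrank F V : ℝ) - finrank F W) ≤
            expansion G S.card (carrier W) := by
        -- finite minimum over proper subspaces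
        by_cases hex : ∃ W : Submodule F V, W ≠ ⊤
        · let T : Finset (Submodule F V) := (Set.toFinite {W : Submodule F V | W ≠ ⊤}).toFinset
          have hTne : T.Nonempty := by
            obtain ⟨W, hW⟩ := hex
            exact ⟨W, by simp [T, hW]⟩
          obtain ⟨W₀, hW₀, hmin⟩ := Finset.exists_min_image T
            (fun W => expansion G S.card (carrier W) / ((finrank F V : ℝ) - finrank F W)) hTne
          have hcod : ∀ W : Submodule F V, W ≠ ⊤ → (0 : ℝ) < (finrank F V : ℝ) - finrank F W := by
            intro W hW
            have := Submodule.finrank_lt hW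
            have h' : (finrank F W : ℝ) < finrank F V := by exact_mod_cast this
            linarith
          have hW₀' : W₀ ≠ ⊤ := by simpa [T] using hW₀
          refine ⟨expansion G S.card (carrier W₀) / ((finrank F V : ℝ) - finrank F W₀), ?_, ?_⟩
          · rw [lt_div_iff₀ (hcod W₀ hW₀')]
            have := hcon W₀ hW₀'
            calc eta / Real.logb (Fintype.card F) (1 / del) * ((finrank F V : ℝ) - finrank F W₀)
                = eta * ((finrank F V : ℝ) - finrank F W₀) / Real.logb (Fintype.card F) (1 / del) := by
                  ring
              _ < _ := this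
          · intro W
            by_cases hW : W = ⊤
            · subst hW
              simp only [finrank_top, sub_self, mul_zero]
              unfold expansion; positivity
            · have := hmin W (by simp [T, hW])
              rwa [← le_div_iff₀ (hcod W hW)]
        · push Not at hex
          refine ⟨eta / Real.logb (Fintype.card F) (1 / del) + 1, by linarith, ?_⟩
          intro W
          rw [hex W]
          simp only [finrank_top, sub_self, mul_zero]
          unfold expansion; positivity
      have hρ0' : 0 < ρ := lt_of_le_of_lt (div_nonneg heta hk.le) hρ0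
      have h1 := (hrho ρ hρ0'.le).mpr (fun W => by
        have := hρ W
        rw [hexpW, le_div_iff₀ hSc] at this
        linarith) A hA
      have h2 : eta < ρ * Real.logb (Fintype.card F) (1 / del) := by
        rwa [div_lt_iff₀ hk] at hρ0
      have h3 : ρ * Real.logb (Fintype.card F) (1 / del) ≤
          ρ * Real.logb (Fintype.card F) (Fintype.card V / A.card) :=
        mul_le_mul_of_nonneg_left hkA hρ0'.le
      linarith
    · -- item 4
      intro eta gam c A hA hc hcard hle
      have hA0 : (0 : ℝ) < A.card := by exact_mod_cast hA.card_pos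
      have hV0 : (0 : ℝ) < Fintype.card V := by
        exact_mod_cast Fintype.card_pos_iff.mpr ⟨(0 : V)⟩
      have hq0 : (0 : ℝ) < Fintype.card F := by linarith
      have hkA : gam * finrank F V ≤
          Real.logb (Fintype.card F) (Fintype.card V / A.card) := by
        rw [Real.le_logb_iff_rpow_le hq (by positivity), le_div_iff₀ hA0]
        calc (Fintype.card F : ℝ) ^ (gam * finrank F V) * A.card
            ≤ (Fintype.card F : ℝ) ^ (gam * finrank F V) *
              ((Fintype.card F : ℝ) ^ (-(gam * finrank F V)) * Fintype.card V) :=
              mul_le_mul_of_nonneg_left hcard (Real.rpow_nonneg hq0.le _)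
          _ = Fintype.card V := by
              rw [← mul_assoc, ← Real.rpow_add hq0]
              simp
      have heta : 0 ≤ eta := by
        refine le_trans ?_ hle
        unfold expansion; positivity
      have hlogle : Real.logb (Fintype.card F) (Fintype.card V / A.card) ≥ 0 := by
        apply Real.logb_nonneg hq
        rw [le_div_iff₀ hA0, one_mul]
        exact_mod_cast Finset.card_le_univ A
      by_cases hn : finrank F V = 0
      · refine ⟨⊤, ?_, ?_⟩
        · rw [hexpW]
          simp
          linarith
        · simp [hn]
      · have hn0 : (0 : ℝ) < finrank F V := by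
          exact_mod_cast Nat.pos_of_ne_zero hn
        obtain ⟨W, hW⟩ := hmain (c / finrank F V) (by positivity)
        have h1 := hW A hA
        rw [logb_carrier] at h1
        have hWn : (finrank F W : ℝ) ≥ 0 := Nat.cast_nonneg _
        have hexp0 : 0 ≤ expansion G S.card (carrier W) := by
          unfold expansion; positivity
        refine ⟨W, ?_, ?_⟩
        · have h2 : c / finrank F V * ((finrank F V : ℝ) - finrank F W) ≤ c := by
            rw [div_mul_eq_mul_div, div_le_iff₀ hn0]
            nlinarith
          have h3 : 0 ≤ c / finrank F V *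
              Real.logb (Fintype.card F) (Fintype.card V / A.card) := by positivity
          linarith
        · have h2 : c / finrank F V * (gam * finrank F V) ≤
              c / finrank F V * Real.logb (Fintype.card F) (Fintype.card V / A.card) :=
            mul_le_mul_of_nonneg_left hkA (by positivity)
          have h3 : c / finrank F V * (gam * finrank F V) - eta ≤
              c / finrank F V * ((finrank F V : ℝ) - finrank F W) := by linarith
          have h4 : c / finrank F V * (gam * finrank F V) = c * gam := by
            field_simp
          rw [h4, div_mul_eq_mul_div, le_div_iff₀ hn0] at h3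
          have h5 : (gam - eta / c) * finrank F V = ((c * gam - eta) * finrank F V) / c := by
            field_simp
          rw [h5, div_le_iff₀ hc]
          linarith

end

end Pool.Agent.Results.MP_8d8c46_lc.CayleySubspaces
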