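import Mathlib
import Pool.Agent.H562R2.CayleySample

set_option autoImplicit false
set_option linter.unusedSectionVars false

/-!
# Small-set expansion in Cayley graphs over `F_q^n`: a test by subspaces

If a Cayley graph of a finite vector space (with connection set closed under nonzero scalars) has a
set of density at most `q^{-k}` and expansion at most `η`, then it has a linear subspace of
codimension exactly `k` with expansion at most `1 - ∏_{j=1}^k (1 - η (1-1/q)/(1-q^{-j}))`.
-/

namespace Pool.Agent.Results.MP_8d8c46_lc.CayleyTest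

open Finset Module
open scoped Classical

noncomputable section

/-- The Cayley graph of `V` with connection set `S`. -/
def cay {V : Type} [AddCommGroup V] (S : Finset V) (hS : ∀ s ∈ S, -s ∈ S) (h0 : (0 : V) ∉ S) :
    SimpleGraph V where
  Adj x y := y - x ∈ S
  symm := ⟨fun x y h => by
    have := hS _ h
    rwa [neg_sub] at this⟩
  loopless := ⟨fun x h => h0 (by simpa using h)⟩

/-- The number of edges of `G` with exactly one endpoint in `A`, counted as ordered pairs
`(x,y)` with `x ∈ A`, `y ∉ A`. -/
def cut {V : Type} [Fintype V] (G : SimpleGraph V) (A : Finset V) : ℕ :=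
  (univ.filter fun p : V × V => p.1 ∈ A ∧ p.2 ∉ A ∧ G.Adj p.1 p.2).card

/-- The expansion `|E(A, V∖A)|/(d|A|)` in a `d`-regular graph. -/
def expansion {V : Type} [Fintype V] (G : SimpleGraph V) (d : ℕ) (A : Finset V) : ℝ :=
  (cut G A : ℝ) / (d * A.card)

/-- The vertex set of a linear subspace. -/
def carrier {F V : Type} [Field F] [AddCommGroup V] [Module F V] [Fintype V]
    (W : Submodule F V) : Finset V := univ.filter fun x => x ∈ W

/-- Yes instances of `SSE(η,δ)` for the `d`-regular graph `G`. -/
def SseYes {V : Type} [Fintype V] (G : SimpleGraph V) (d : ℕ) (eta del : ℝ) : Prop :=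
  ∃ A : Finset V, A.Nonempty ∧ (A.card : ℝ) = del * Fintype.card V ∧ expansion G d A ≤ eta

/-- No instances of `SSE(η,δ)` for the `d`-regular graph `G`. -/
def SseNo {V : Type} [Fintype V] (G : SimpleGraph V) (d : ℕ) (eta del : ℝ) : Prop :=
  ∀ A : Finset V, A.Nonempty → (A.card : ℝ) = del * Fintype.card V → 1 - eta ≤ expansion G d A

lemma cut_cay {V : Type} [AddCommGroup V] [Fintype V] (S : Finset V) (hS : ∀ s ∈ S, -s ∈ S)
    (h0 : (0 : V) ∉ S) (A : Finset V) :
    (cut (cay S hS h0) A : ℝ)
      = ∑ s, (if s ∈ S then (1 : ℝ) else 0) * H562R2.CayleyIso.outCount A s := by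
  unfold cut
  have h1 : ∀ s, (if s ∈ S then (1 : ℝ) else 0) * (H562R2.CayleyIso.outCount A s : ℝ)
      = ∑ x, if x ∈ A ∧ x + s ∉ A ∧ s ∈ S then (1 : ℝ) else 0 := by
    intro s
    unfold H562R2.CayleyIso.outCount
    rw [Finset.card_filter]
    push_cast
    rw [Finset.mul_sum]
    rw [← Finset.sum_subset (Finset.subset_univ A)]
    · refine Finset.sum_congr rfl fun x hx => ?_
      by_cases h1 : s ∈ S <;> by_cases h2 : x + s ∈ A <;> simp [h1, h2, hx]
    · intro x _ hx
      simp [hx]
  simp_rw [h1]
  rw [Finset.sum_comm, Finset.card_filter]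
  push_cast
  rw [← Finset.univ_product_univ, Finset.sum_product]
  refine Finset.sum_congr rfl fun x _ => ?_
  symm
  refine Fintype.sum_equiv (Equiv.addLeft x) _ _ fun s => ?_
  simp only [Equiv.coe_addLeft, cay, add_sub_cancel_left]

lemma out_subspace {F V : Type} [Field F] [Fintype F] [AddCommGroup V] [Module F V] [Fintype V]
    (W : Submodule F V) (s : V) :
    H562R2.CayleyIso.outCount (carrier W) s = if s ∈ W then 0 else (carrier W).card := by
  unfold H562R2.CayleyIso.outCount
  split_ifs with h
  · rw [Finset.card_eq_zero, Finset.filter_eq_empty_iff]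
    intro x hx
    simp only [carrier, Finset.mem_filter, Finset.mem_univ, true_and, not_not] at hx ⊢
    exact W.add_mem hx h
  · congr 1
    rw [Finset.filter_eq_self]
    intro x hx
    simp only [carrier, Finset.mem_filter, Finset.mem_univ, true_and] at hx ⊢
    intro hc
    apply h
    have := W.sub_mem hc hx
    simpa using this

lemma card_carrier {F V : Type} [Field F] [Fintype F] [AddCommGroup V] [Module F V] [Fintype V]
    (W : Submodule F V) : (carrier W).card = Fintype.card F ^ finrank F W := by
  rw [← Module.card_eq_pow_finrank (K := F) (V := W)]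
  unfold carrier
  rw [Fintype.card_subtype]

lemma carrier_nonempty {F V : Type} [Field F] [AddCommGroup V] [Module F V] [Fintype V]
    (W : Submodule F V) : (carrier W).Nonempty := ⟨0, by simp [carrier]⟩

lemma expansion_subspace {F V : Type} [Field F] [Fintype F] [AddCommGroup V] [Module F V]
    [Fintype V] (S : Finset V) (hS : ∀ s ∈ S, -s ∈ S) (h0 : (0 : V) ∉ S) (hne : S.Nonempty)
    (W : Submodule F V) :
    expansion (cay S hS h0) S.card (carrier W)
      = 1 - ((S.filter fun s => s ∈ W).card : ℝ) / S.card := by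
  have hSc : (0 : ℝ) < S.card := by exact_mod_cast hne.card_pos
  have hc : (0 : ℝ) < (carrier W).card := by exact_mod_cast (carrier_nonempty W).card_pos
  unfold expansion
  rw [cut_cay]
  have h1 : ∀ s, (if s ∈ S then (1 : ℝ) else 0) * (H562R2.CayleyIso.outCount (carrier W) s : ℝ)
      = (if s ∈ S then (if s ∈ W then 0 else (carrier W).card : ℝ) else 0) := by
    intro s
    rw [out_subspace]
    by_cases h : s ∈ S <;> by_cases h' : s ∈ W <;> simp [h, h']
  simp_rw [h1]
  rw [← Finset.sum_filter]
  have h2 : (univ.filter fun s => s ∈ S) = S := by ext; simp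
  rw [h2]
  have h3 : ∑ s ∈ S, (if s ∈ W then (0 : ℝ) else (carrier W).card)
      = (S.card - (S.filter fun s => s ∈ W).card : ℝ) * (carrier W).card := by
    have : ∀ s ∈ S, (if s ∈ W then (0 : ℝ) else (carrier W).card)
        = (1 - if s ∈ W then (1 : ℝ) else 0) * (carrier W).card := by
      intro s _; split_ifs <;> simp
    rw [Finset.sum_congr rfl this, ← Finset.sum_mul, Finset.sum_sub_distrib, Finset.card_filter]
    push_cast
    simp
  rw [h3]
  field_simp

/-- a basis of a subspace of known dimension -/
def basisOf {K D : Type} [Field K] [AddCommGroup D] [Module K D] [FiniteDimensional K D] {k : ℕ}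
    (W : Submodule K D) (h : finrank K W = k) : Basis (Fin k) K W :=
  Module.finBasisOfFinrankEq K W h

lemma num_subspaces {F V : Type} [Field F] [Fintype F] [AddCommGroup V] [Module F V]
    [Fintype V] (k : ℕ) :
    Nat.card {U : Submodule F V // finrank F U + k = finrank F V} ≤ (Fintype.card V) ^ k := by
  have hfin : ∀ U : {U : Submodule F V // finrank F U + k = finrank F V},
      finrank F U.1.dualAnnihilator = k := by
    rintro ⟨U, hU⟩
    have := Subspace.finrank_add_finrank_dualAnnihilator_eq U
    show finrank F U.dualAnnihilator = k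
    omega
  let b : ∀ U : {U : Submodule F V // finrank F U + k = finrank F V},
      Basis (Fin k) F U.1.dualAnnihilator := fun U => basisOf _ (hfin U)
  let f : {U : Submodule F V // finrank F U + k = finrank F V} → (Fin k → Dual F V) :=
    fun U i => (b U i : Dual F V)
  have hspan : ∀ U, Submodule.span F (Set.range (f U)) = U.1.dualAnnihilator := by
    intro U
    have h1 : Set.range (f U) = (U.1.dualAnnihilator).subtype '' (Set.range (b U)) := by
      ext x; simp [f]
    rw [h1, Submodule.span_image, (b U).span_eq]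
    simp
  have hinj : Function.Injective f := by
    intro U U' h
    have h1 : U.1.dualAnnihilator = U'.1.dualAnnihilator := by
      rw [← hspan U, ← hspan U', h]
    apply Subtype.ext
    have h2 := congrArg Submodule.dualCoannihilator h1
    rwa [Subspace.dualAnnihilator_dualCoannihilator_eq,
      Subspace.dualAnnihilator_dualCoannihilator_eq] at h2
  have hcard : Nat.card (Fin k → Dual F V) = (Fintype.card V) ^ k := by
    rw [Nat.card_fun, Nat.card_eq_fintype_card, Nat.card_eq_fintype_card, Fintype.card_fin,
      Module.card_eq_pow_finrank (K := F) (V := Dual F V),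
      Module.card_eq_pow_finrank (K := F) (V := V), Subspace.dual_finrank_eq]
  rw [← hcard]
  exact Nat.card_le_card_of_injective f hinj

/-- **Result.** Let `F` be a finite field with `q` elements, `V` a finite `F`-vector space,
`G = Cay(V,S)` with `S` nonempty, `0 ∉ S` and `S` closed under nonzero scalars; let `0 ≤ η ≤ 1`.
1. If a nonempty `A` with `|A| ≤ q^{-k}|V|` has `Φ_G(A) ≤ η`, then some linear subspace `U` of
codimension exactly `k` satisfies
`Φ_G(U) ≤ 1 - ∏_{j=1}^k (1 - η (1-1/q)/(1-q^{-j})) ≤ 1 - (1-η)² (1-(1-1/q)η)^k`.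
2. Hence, if `(1-η)² (1-(1-1/q)η)^k > η`, the condition that some subspace of codimension `k`
contains more than `η|S|` elements of `S` holds for every yes instance `G` of `SSE(η,q^{-k})` and
fails for every no instance; and there are at most `|V|^k` such subspaces. -/
theorem result (F V : Type) [Field F] [Fintype F] [AddCommGroup V] [Module F V] [Fintype V]
    (S : Finset V) (hS : ∀ s ∈ S, -s ∈ S) (h0 : (0 : V) ∉ S) (hne : S.Nonempty)
    (hinv : ∀ (c : F) (s : V), c ≠ 0 → s ∈ S → c • s ∈ S)
    (k : ℕ) (eta : ℝ) (heta0 : 0 ≤ eta) (heta1 : eta ≤ 1) :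
    (∀ A : Finset V, A.Nonempty → (A.card : ℝ) ≤ (1 / (Fintype.card F : ℝ) ^ k) * Fintype.card V →
      expansion (cay S hS h0) S.card A ≤ eta →
      ∃ U : Submodule F V, finrank F U + k = finrank F V ∧
        expansion (cay S hS h0) S.card (carrier U) ≤
          1 - ∏ j ∈ Finset.Icc 1 k,
            (1 - eta * (1 - 1 / (Fintype.card F : ℝ)) / (1 - 1 / (Fintype.card F : ℝ) ^ j)) ∧
        expansion (cay S hS h0) S.card (carrier U) ≤
          1 - (1 - eta) ^ 2 * (1 - (1 - 1 / (Fintype.card F : ℝ)) * eta) ^ k) ∧
    (eta < (1 - eta) ^ 2 * (1 - (1 - 1 / (Fintype.card F : ℝ)) * eta) ^ k →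
      (SseYes (cay S hS h0) S.card eta (1 / (Fintype.card F : ℝ) ^ k) →
        ∃ U : Submodule F V, finrank F U + k = finrank F V ∧
          eta * S.card < ((S.filter fun s => s ∈ U).card : ℝ)) ∧
      (SseNo (cay S hS h0) S.card eta (1 / (Fintype.card F : ℝ) ^ k) →
        ¬ ∃ U : Submodule F V, finrank F U + k = finrank F V ∧
          eta * S.card < ((S.filter fun s => s ∈ U).card : ℝ))) ∧
    Nat.card {U : Submodule F V // finrank F U + k = finrank F V} ≤ (Fintype.card V) ^ k := by
  have hq := H562R2.CayleyIso.one_lt_q (F := F)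
  have hq2 : (2 : ℝ) ≤ Fintype.card F := by
    exact_mod_cast (Fintype.one_lt_card (α := F))
  have hq0 : (0 : ℝ) < Fintype.card F := by linarith
  have hSc : (0 : ℝ) < S.card := by exact_mod_cast hne.card_pos
  set G := cay S hS h0 with hG
  let μ : V → ℝ := fun s => if s ∈ S then (1 : ℝ) / S.card else 0
  have hμ : ∀ s, 0 ≤ μ s := by
    intro s; simp only [μ]; split_ifs <;> positivity
  have hmem : ∀ (c : F) (s : V), c ≠ 0 → (c • s ∈ S ↔ s ∈ S) := by
    intro c s hc
    constructor
    · intro h
      have := hinv c⁻¹ _ (inv_ne_zero hc) h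
      rwa [smul_smul, inv_mul_cancel₀ hc, one_smul] at this
    · exact hinv c s hc
  have hμinv : ∀ (c : F) (s : V), c ≠ 0 → μ (c • s) = μ s := by
    intro c s hc
    simp only [μ, hmem c s hc]
  have hμ1 : ∑ s, μ s = 1 := by
    simp only [μ]
    rw [← Finset.sum_filter, Finset.sum_const, nsmul_eq_mul]
    have h2 : (univ.filter fun s => s ∈ S) = S := by ext; simp
    rw [h2]; field_simp
  have hexp : ∀ A : Finset V, expansion G S.card A
      = (∑ s, μ s * (H562R2.CayleyIso.outCount A s : ℝ)) / A.card := by
    intro A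
    unfold expansion
    rw [hG, cut_cay, ← div_div, Finset.sum_div]
    congr 1
    refine Finset.sum_congr rfl fun s _ => ?_
    simp only [μ]
    by_cases h : s ∈ S <;> simp [h]
    ring
  have hμU : ∀ U : Submodule F V, ∑ s ∈ univ.filter (fun s => s ∈ U), μ s
      = ((S.filter fun s => s ∈ U).card : ℝ) / S.card := by
    intro U
    simp only [μ]
    rw [Finset.sum_ite, Finset.sum_const_zero, add_zero, Finset.sum_const, nsmul_eq_mul]
    have : (univ.filter (fun s => s ∈ U)).filter (fun s => s ∈ S) = S.filter (fun s => s ∈ U) := by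
      ext s; simp [and_comm]
    rw [this]; ring
  have hprod : H562R2.CayleySample.h (Fintype.card F) k eta = ∏ j ∈ Finset.Icc 1 k,
      (1 - eta * (1 - 1 / (Fintype.card F : ℝ)) / (1 - 1 / (Fintype.card F : ℝ) ^ j)) := by
    unfold H562R2.CayleySample.h H562R2.CayleySample.kap
    rw [← Finset.Ico_add_one_right_eq_Icc, Finset.prod_Ico_eq_prod_range]
    simp only [Nat.add_sub_cancel]
    refine Finset.prod_congr rfl fun j _ => ?_
    rw [add_comm 1 j]; ring
  have h1 : ∀ A : Finset V, A.Nonempty →
      (A.card : ℝ) ≤ (1 / (Fintype.card F : ℝ) ^ k) * Fintype.card V →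
      expansion G S.card A ≤ eta →
      ∃ U : Submodule F V, finrank F U + k = finrank F V ∧
        expansion G S.card (carrier U) ≤
          1 - ∏ j ∈ Finset.Icc 1 k,
            (1 - eta * (1 - 1 / (Fintype.card F : ℝ)) / (1 - 1 / (Fintype.card F : ℝ) ^ j)) ∧
        expansion G S.card (carrier U) ≤
          1 - (1 - eta) ^ 2 * (1 - (1 - 1 / (Fintype.card F : ℝ)) * eta) ^ k := by
    intro A hA hcard hle
    rw [hexp] at hle
    have hcard' : (A.card : ℝ) * (Fintype.card F : ℝ) ^ k ≤ Fintype.card V := by
      rw [one_div, inv_mul_eq_div, le_div_iff₀ (by positivity)] at hcard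
      exact hcard
    obtain ⟨U, hU, hUle⟩ := H562R2.CayleySample.exists_subspace' μ hμ hμ1 hμinv A hA k hcard'
      eta heta1 hle
    have hlow := H562R2.CayleySample.h_lower (Fintype.card F : ℝ) hq2 k eta heta0 heta1
    rw [hμU] at hUle
    refine ⟨U, hU, ?_, ?_⟩
    · rw [hG, expansion_subspace S hS h0 hne, ← hprod]; linarith
    · rw [hG, expansion_subspace S hS h0 hne]; linarith
  refine ⟨h1, ?_, num_subspaces k⟩
  intro hbig
  constructor
  · rintro ⟨A, hA, hAc, hle⟩
    obtain ⟨U, hU, _, hU2⟩ := h1 A hA hAc.le hle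
    refine ⟨U, hU, ?_⟩
    rw [hG, expansion_subspace S hS h0 hne] at hU2
    rw [← lt_div_iff₀ hSc]
    linarith
  · rintro hno ⟨U, hU, hlt⟩
    have h2 := hno (carrier U) (carrier_nonempty U) (by
      rw [card_carrier, Module.card_eq_pow_finrank (K := F) (V := V), ← hU]
      push_cast
      rw [pow_add]
      field_simp)
    rw [hG, expansion_subspace S hS h0 hne] at h2
    rw [← lt_div_iff₀ hSc] at hlt
    linarith

end

end Pool.Agent.Results.MP_8d8c46_lc.CayleyTest
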