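import Pool.Agent.H647R3.UG.All
import Pool.Agent.H647R3.UG.DecU

/-!
Decomposition of a graph into parts of small threshold rank.
-/

namespace Pool.Agent.Results.MP_8d8c46_lc.RankDecomposition

open Finset

/-- Normalised adjacency matrix of the part `C` of a weighted graph with edge weights `w`. The
entry at `(u, v)` is `w u v / (sqrt (deg u) * sqrt (deg v))` with the degrees `deg u = ∑ x, w u x`
of the whole graph; the weight of the edges leaving `C` is kept in the form of loops. -/
noncomputable def partMatrix {V : Type} [Fintype V] [DecidableEq V] (w : V → V → ℝ)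
    (C : Finset V) : Matrix C C ℝ :=
  fun u v => (w u v + if u = v then ∑ x ∈ univ \ C, w u x else 0)
    / (Real.sqrt (∑ x, w u x) * Real.sqrt (∑ x, w v x))

/-- number of eigenvalues `≥ θ` of a real symmetric matrix, with multiplicity -/
noncomputable def eigCount {n : Type} [Fintype n] [DecidableEq n] (M : Matrix n n ℝ) (θ : ℝ) : ℕ :=
  (M.charpoly.roots.filter fun x => θ ≤ x).card

/-- Every weighted graph on `n` vertices can be partitioned (into the classes of `c`), cutting at
most a fraction `K` of the total edge weight, such that for every `η ∈ (0, 1]` every class has at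
most `30 * n ^ (16 * sqrt η / K)` eigenvalues `≥ 1 - η`. -/
theorem result (V : Type) [Fintype V] [DecidableEq V] (w : V → V → ℝ) (K : ℝ)
    (hnonneg : ∀ u v, 0 ≤ w u v) (hsymm : ∀ u v, w u v = w v u) (hK : 0 < K) :
    ∃ c : V → V, (∑ u, ∑ v, (if c u = c v then 0 else w u v)) ≤ K * ∑ u, ∑ v, w u v ∧
      ∀ η : ℝ, 0 < η → η ≤ 1 → ∀ i : V,
        (eigCount (partMatrix w (univ.filter fun v => c v = i)) (1 - η) : ℝ)
          ≤ 30 * (Fintype.card V : ℝ) ^ (16 * Real.sqrt η / K) := by
  have hEA : Pool.Agent.H647R3.UG.St_EA := by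
    open Pool.Agent.H647R3.UG in
    exact T_EA (T_GCF (T_GC T_OP (T_HD T_OP (T_FK T_CO)) (T_LC T_OP)))
  exact Pool.Agent.H647R3.UG.decU hEA Pool.Agent.H647R3.UG.T_PA Pool.Agent.H647R3.UG.T_EN V w K
    hnonneg hsymm hK

end Pool.Agent.Results.MP_8d8c46_lc.RankDecomposition
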