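import Pool.Agent.H573R3.SL.AllD

/-!
Every weighted graph on `n` vertices is, up to a fraction `K` of its Dirichlet energy, a
superposition of localised parts which satisfy a logarithmic Sobolev inequality with constant
`K / (2 log n)`, and therefore have few small eigenvalues.
-/

namespace Pool.Agent.Results.MP_8d8c46_lc.SoftDecomposition

open Finset

/-- weighted degree -/
def deg {V : Type} [Fintype V] (w : V → V → ℝ) (v : V) : ℝ := ∑ u, w v u

/-- mass of the vertex `v` in the part with amplitude `f` -/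
def mass {V : Type} [Fintype V] (w : V → V → ℝ) (f : V → ℝ) (v : V) : ℝ := deg w v * f v ^ 2

/-- weight of the edge `uv` in the part with amplitude `f` -/
def cond {V : Type} (w : V → V → ℝ) (f : V → ℝ) (u v : V) : ℝ := w u v * (f u * f v)

/-- The part with amplitude `f` satisfies the logarithmic Sobolev inequality with constant `l`:
`l` times the entropy of `h ^ 2` with respect to the masses is at most the Dirichlet energy
of `h`, for all `h ≥ 0`. -/
def LogSobolev {V : Type} [Fintype V] (w : V → V → ℝ) (f : V → ℝ) (l : ℝ) : Prop :=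
  ∀ h : V → ℝ, (∀ v, 0 ≤ h v) →
    l * ((∑ v, mass w f v * (h v ^ 2 * Real.log (h v ^ 2)))
        - (∑ v, mass w f v * h v ^ 2)
          * Real.log ((∑ v, mass w f v * h v ^ 2) / ∑ v, mass w f v))
      ≤ (1 / 2) * ∑ u, ∑ v, cond w f u v * (h u - h v) ^ 2

/-- Normalised Laplacian of the part with amplitude `f`, on the vertices of positive mass. -/
noncomputable def laplacian {V : Type} [Fintype V] [DecidableEq V] (w : V → V → ℝ)
    (f : V → ℝ) : Matrix {v // 0 < mass w f v} {v // 0 < mass w f v} ℝ :=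
  fun u v => ((if u = v then ∑ x, cond w f u x else 0) - cond w f u v)
    / (Real.sqrt (mass w f u) * Real.sqrt (mass w f v))

theorem result (V : Type) [Fintype V] [DecidableEq V] (w : V → V → ℝ) (K : ℝ)
    (hw : ∀ u v, 0 ≤ w u v) (hs : ∀ u v, w u v = w v u) (hn : 2 ≤ Fintype.card V) (hK : 0 < K) :
    ∃ f : Fin (Fintype.card V + 1) → V → ℝ,
      (∀ i v, 0 ≤ f i v) ∧ (∀ v, ∑ i, f i v ^ 2 = 1) ∧
      ∑ i, ∑ u, ∑ v, w u v * (f i u - f i v) ^ 2 ≤ K * ∑ u, ∑ v, w u v ∧
      ∀ i, LogSobolev w (f i) (K / (2 * Real.log (Fintype.card V))) ∧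
        ∀ η : ℝ, 0 < η → η ≤ 1 →
          (((laplacian w (f i)).charpoly.roots.filter fun x => x ≤ η).card : ℝ)
            ≤ 16 * (Fintype.card V : ℝ) ^ (η + 16 * η / K * Real.log (1 / η)) := by
  obtain ⟨f, hf, h1, h2, h3⟩ := Pool.Agent.H573R3.SL.allD V w K hw hs hn hK
  refine ⟨f, hf.1, hf.2, h1, fun i => ⟨?_, ?_⟩⟩
  · intro h hh
    exact h2 i h hh
  · intro η hη hη1
    exact h3 i η hη hη1

end Pool.Agent.Results.MP_8d8c46_lc.SoftDecomposition
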